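import Mathlib
import Pool.Agent.H77.INS.FS

set_option autoImplicit false

namespace Pool.Agent.Results.MP_373bb8_ag.EveryCharacteristic

/-- `I^[q]`, `q = p^e` -/
def frobeniusPower {R : Type} [CommRing R] (p e : ℕ) (I : Ideal R) : Ideal R :=
  Ideal.span {b | ∃ a ∈ I, b = a ^ (p ^ e)}

/-- `I` is Frobenius closed -/
def FrobeniusClosed {R : Type} [CommRing R] (p : ℕ) (I : Ideal R) : Prop :=
  ∀ (r : R) (e : ℕ), r ^ (p ^ e) ∈ frobeniusPower p e I → r ∈ I

/-- for a local ring `R` of dimension `d`: `I` is generated by a full system of parameters, that is by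
`d` elements, and the radical of `I` is the maximal ideal -/
def IsParameterIdeal {R : Type} [CommRing R] (I : Ideal R) : Prop :=
  ∃ (d : ℕ) (y : Fin d → R), (d : WithBot ℕ∞) = ringKrullDim R ∧
    I = Ideal.span (Set.range y) ∧ I.radical.IsMaximal

/-- parameter F-closed -/
def ParameterFClosed (p : ℕ) (R : Type) [CommRing R] : Prop :=
  ∀ I : Ideal R, IsParameterIdeal I → FrobeniusClosed p I

/-- `R` is F-split: there is an additive `φ : R → R` with `φ (a^p b) = a φ(b)` and `φ(1) = 1` -/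
def FSplit (p : ℕ) (R : Type) [CommRing R] : Prop :=
  ∃ φ : R →+ R, (∀ a b, φ (a ^ p * b) = a * φ b) ∧ φ 1 = 1

/-- For every prime `p` there are a reduced Noetherian local ring `R` of characteristic `p` and of
dimension 4, all of whose minimal primes `P` have `dim R/P = 4`, and a regular element `x` of its
maximal ideal such that `R/xR` is F-split, all ideals of `R/xR` are Frobenius closed, in particular
`R/xR` is parameter F-closed, but `R` is not parameter F-closed. -/
theorem result (p : ℕ) [Fact p.Prime] :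
    ∃ (R : Type) (_ : CommRing R) (x : R),
      IsNoetherianRing R ∧ IsLocalRing R ∧ CharP R p ∧ IsReduced R ∧
      ringKrullDim R = 4 ∧ (∀ P ∈ minimalPrimes R, ringKrullDim (R ⧸ P) = 4) ∧
      ¬ IsUnit x ∧ x ∈ nonZeroDivisors R ∧
      FSplit p (R ⧸ Ideal.span {x}) ∧
      (∀ I : Ideal (R ⧸ Ideal.span {x}), FrobeniusClosed p I) ∧
      ParameterFClosed p (R ⧸ Ideal.span {x}) ∧
      ¬ ParameterFClosed p R := by
  obtain ⟨φ, h1, h2⟩ := Pool.Agent.H77.INS.Fc.split_T (p := p)
  have hall : ∀ I : Ideal (Pool.Agent.H77.INS.Fc.T' (p := p) ⧸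
      Ideal.span {Pool.Agent.H77.INS.Fc.uT' (p := p)}), FrobeniusClosed p I := fun I r e hr =>
    Pool.Agent.H77.INS.Fc.closed_of_split p φ h1 h2 I e r hr
  refine ⟨Pool.Agent.H77.INS.Fc.T' (p := p), inferInstance, Pool.Agent.H77.INS.Fc.uT' (p := p),
    inferInstance, inferInstance, inferInstance, Pool.Agent.H77.INS.Fc.red_T,
    Pool.Agent.H77.INS.Fc.dimT, ?_, ?_, Pool.Agent.H77.INS.Fc.uT_nzd, ⟨φ, h1, h2⟩, hall,
    fun I _ => hall I, ?_⟩
  · intro P hP
    rw [Pool.Agent.H77.INS.Fc.equidim P hP]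
    exact Pool.Agent.H77.INS.Fc.dimT
  · exact (IsLocalRing.mem_maximalIdeal _).mp Pool.Agent.H77.INS.Fc.uT_mem
  · intro H
    refine Pool.Agent.H77.INS.Fc.rr_not_mem (p := p) (H _ ⟨4, Pool.Agent.H77.INS.Fc.yy' (p := p), ?_,
      rfl, ?_⟩ _ 1 ?_)
    · rw [Pool.Agent.H77.INS.Fc.dimT]; rfl
    · rw [Pool.Agent.H77.INS.Fc.rad_eq]; infer_instance
    · have h := Pool.Agent.H77.INS.Fc.rr_sq (p := p)
      refine (Ideal.span_mono ?_) h
      rintro _ ⟨a, ha, rfl⟩
      exact ⟨a, ha, rfl⟩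

end Pool.Agent.Results.MP_373bb8_ag.EveryCharacteristic
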